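import Pool.Agent.Helper13.AG3.Goals

set_option autoImplicit false

namespace Pool.Agent.Helper13.AG3

open Pool.Agent.Helper32.AG
open Pool.Agent.Helper71.AG2 (AbP)

universe u

open scoped commutatorElement

/-- The form of the result. -/
theorem cls_of {Q : Type u} [Group Q] [Finite Q] (N : Subgroup Q) [N.Normal]
    (hs : Group.IsSolvable N)
    (hS : ∀ p : ℕ, p.Prime → p ∣ Nat.card N → ∀ P : Sylow p Q, ∀ x ∈ P, ∀ y ∈ P, x * y = y * x)
    (hT : Helper46.KG.IsSupersolvable (Q ⧸ N) ∨
      ∃ (M : Subgroup Q) (_ : M.Normal), ⁅M, M⁆ ≤ N ∧ Group.IsNilpotent (Q ⧸ M)) : Cls Q := by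
  have hk : (QuotientGroup.mk' N).ker = N := QuotientGroup.ker_mk' N
  refine ⟨Q ⧸ N, inferInstance, QuotientGroup.mk' N, QuotientGroup.mk'_surjective N, ?_, ?_, ?_⟩
  · rw [hk]; exact hs
  · intro p hp hd P hP x hx y hy
    rw [hk] at hd
    obtain ⟨S, hS'⟩ := hP.exists_le_sylow
    exact hS p hp hd S x (hS' hx) y (hS' hy)
  · rcases hT with h | ⟨M, hMn, hM, hQ⟩
    · exact Or.inl h
    · right
      have hn : (M.map (QuotientGroup.mk' N)).Normal :=
        hMn.map _ (QuotientGroup.mk'_surjective N)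
      refine ⟨(Q ⧸ N) ⧸ M.map (QuotientGroup.mk' N), inferInstance,
        QuotientGroup.mk' (M.map (QuotientGroup.mk' N)), ?_, ?_⟩
      · have hle : M ≤ (M.map (QuotientGroup.mk' N)).comap (QuotientGroup.mk' N) :=
          Subgroup.le_comap_map _ _
        have hsur : Function.Surjective
            (QuotientGroup.map M (M.map (QuotientGroup.mk' N)) (QuotientGroup.mk' N) hle) := by
          intro y
          obtain ⟨z, rfl⟩ := QuotientGroup.mk_surjective y
          obtain ⟨x, rfl⟩ := QuotientGroup.mk_surjective z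
          exact ⟨(x : Q ⧸ M), rfl⟩
        exact Group.nilpotent_of_surjective _ hsur
      · intro x hx y hy
        rw [QuotientGroup.ker_mk'] at hx hy
        obtain ⟨a, ha, rfl⟩ := hx
        obtain ⟨b, hb, rfl⟩ := hy
        have h3 : QuotientGroup.mk' N ⁅a, b⁆ = 1 :=
          (QuotientGroup.eq_one_iff _).mpr (hM (Subgroup.commutator_mem_commutator ha hb))
        rw [map_commutatorElement] at h3
        exact commutatorElement_eq_one_iff_mul_comm.mp h3

/-- The old hypothesis is a case of the new one: `M = Q'`. -/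
theorem hyp_of_old {Q : Type u} [Group Q] (N : Subgroup Q)
    (h : derivedSeries Q 2 ≤ N) :
    ∃ (M : Subgroup Q) (_ : M.Normal), ⁅M, M⁆ ≤ N ∧ Group.IsNilpotent (Q ⧸ M) := by
  refine ⟨commutator Q, inferInstance, ?_, ?_⟩
  · have h2 : derivedSeries Q 2 = ⁅commutator Q, commutator Q⁆ := by
      rw [derivedSeries_succ, derivedSeries_one]
    rw [← h2]
    exact h
  · exact (inferInstance : Group.IsNilpotent (Abelianization Q))

end Pool.Agent.Helper13.AG3
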