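import Pool.Agent.Helper71.AG2.Goals

/-!
# PROJECT AG++ (MP_0f21ab_al): AG+ with metabelian replaced by abelian-by-nilpotent

Everything of `Pool.Agent.Helper71.AG2.Goals` which does not use `Top` is used unchanged.
-/

set_option autoImplicit false

namespace Pool.Agent.Helper13.AG3

open Pool.Agent.Helper32.AG
open Pool.Agent.Helper71.AG2 (AbP)
open scoped commutatorElement

universe u

/-- Abelian-by-nilpotent: a homomorphism to a nilpotent group with commutative kernel. -/
def Abn (T : Type u) [Group T] : Prop :=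
  ∃ (Q : Type u) (_ : Group Q) (g : T →* Q), Group.IsNilpotent Q ∧
    ∀ x ∈ g.ker, ∀ y ∈ g.ker, x * y = y * x

/-- Supersolvable or abelian-by-nilpotent. -/
def Top (T : Type u) [Group T] : Prop := Helper46.KG.IsSupersolvable T ∨ Abn T

/-- The class: `T = G / N`, `N = ker f`. -/
def Cls (G : Type u) [Group G] : Prop :=
  ∃ (T : Type u) (_ : Group T) (f : G →* T), Function.Surjective f ∧ Group.IsSolvable f.ker ∧
    (∀ p : ℕ, p.Prime → p ∣ Nat.card f.ker → AbP p G) ∧ Top T

def TopStmt : Prop :=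
  (∀ (G G' : Type u) [Group G] [Group G'] (f : G →* G'), Function.Surjective f → Top G → Top G') ∧
  (∀ (G G' : Type u) [Group G] [Group G'] (f : G →* G'), Function.Injective f → Top G' → Top G)

def ClsStmt : Prop :=
  (∀ (G G' : Type u) [Group G] [Group G'] [Finite G] (f : G →* G'), Function.Surjective f →
    Cls G → Cls G') ∧
  (∀ (G G' : Type u) [Group G] [Group G'] [Finite G'] (f : G →* G'), Function.Injective f →
    Cls G' → Cls G)

def SolStmt : Prop := ∀ (G : Type u) [Group G], Cls G → Group.IsSolvable G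

def MaxStmt : Prop := ∀ (H : Type u) [Group H] [Finite H], Cls H →
  ∃ A : Subgroup H, A.Normal ∧ (∀ x ∈ A, ∀ y ∈ A, x * y = y * x) ∧
    Subgroup.centralizer (A : Set H) ≤ A

def LinStmt : Prop := ∀ (p : ℕ) [Fact p.Prime] (U : Type u) [AddCommGroup U] [Module (ZMod p) U]
  [Finite U] [Nontrivial U] (H : Subgroup (U ≃ₗ[ZMod p] U)), Irr H → Cls H →
  ¬ p ∣ Nat.card H →
  (∃ s q, 3 ≤ s ∧ Levels H s q) ∨ OneOut H ∨ Pool.Agent.Helper71.AG2.TwoOut H ∨ ManyOut H

/-- NIL. -/
def NilStmt : Prop := ∀ (P : Type u) [Group P] [Finite P], Group.IsNilpotent P →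
  2 * Nat.card P ^ 2 ≤ 3 ^ k P

def BaseStmt : Prop := ∀ (G : Type u) [Group G] [Finite G], Top G → 3 * Nat.card G ≤ 3 ^ k G

def FinStmt : Prop := ∀ (G : Type u) [Group G] [Finite G], Cls G → 3 * Nat.card G ≤ 3 ^ k G

end Pool.Agent.Helper13.AG3
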