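import Mathlib
import Pool.Agent.Helper79.AG.MAX
import Pool.Agent.Helper13.AG3.Goals

/-!
# AG++: a self-centralizing abelian normal subgroup (supersolvable or abelian-by-nilpotent top)
-/

set_option autoImplicit false

namespace Pool.Agent.Helper13.AG3

universe u

open Pool.Agent.Helper79.AG

/-- `H / N` is supersolvable or abelian-by-nilpotent. -/
def Tp (H : Type u) [Group H] (N : Subgroup H) : Prop :=
  (∃ (n : ℕ) (P : ℕ → Subgroup H), P 0 = N ∧ P n = ⊤ ∧ (∀ i, (P i).Normal) ∧
    ∀ i, i < n → ∃ g : H, P (i + 1) = P i ⊔ Subgroup.zpowers g) ∨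
  ∃ (Q : Type u) (_ : Group Q) (φ : H →* Q), Group.IsNilpotent Q ∧
    ∀ x ∈ φ.ker, ∀ y ∈ φ.ker, x * y * x⁻¹ * y⁻¹ ∈ N

/-- **MAX+.** -/
theorem maxp (H : Type u) [Group H] [Finite H] (hsol : Group.IsSolvable H)
    (N : Subgroup H) [hNn : N.Normal]
    (core : ∀ x y c : H, x * y = y * x * c → c * x = x * c → c * y = y * c → c ∈ N → c = 1)
    (htop : Tp H N) :
    ∃ A : Subgroup H, A.Normal ∧ (∀ x ∈ A, ∀ y ∈ A, x * y = y * x) ∧
      Subgroup.centralizer (A : Set H) ≤ A := by
  classical
  let S : Set (Subgroup H) := {A | A.Normal ∧ ∀ x ∈ A, ∀ y ∈ A, x * y = y * x}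
  have hS : S.Nonempty := by
    refine ⟨⊥, inferInstance, ?_⟩
    intro x hx y hy
    rw [Subgroup.mem_bot] at hx hy
    rw [hx, hy]
  obtain ⟨A, hmax⟩ := S.toFinite.exists_maximal hS
  have hAS : A ∈ S := hmax.prop
  refine ⟨A, hAS.1, hAS.2, ?_⟩
  by_contra hC
  have hAn : A.Normal := hAS.1
  have hCn : (Subgroup.centralizer (A : Set H)).Normal := inferInstance
  have hAC : A ≤ Subgroup.centralizer (A : Set H) := by
    intro x hx
    rw [Subgroup.mem_centralizer_iff]
    intro y hy
    exact hAS.2 y hy x hx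
  set π := QuotientGroup.mk' A with hπ
  have hsurj : Function.Surjective π := QuotientGroup.mk'_surjective A
  have hker : π.ker = A := QuotientGroup.ker_mk' A
  have hQ : Group.IsSolvable (H ⧸ A) := Group.isSolvable_of_surjective hsurj
  have hC0 : (Subgroup.centralizer (A : Set H)).map π ≠ ⊥ := by
    intro h
    rw [Subgroup.map_eq_bot_iff, hker] at h
    exact hC h
  obtain ⟨B, hB1, hB2, hB3, hB4⟩ := exists_ab hQ _ (hCn.map π hsurj) hC0
  have hLn : (B.comap π).Normal := hB1.comap π
  have hAB : A ≤ B.comap π := by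
    intro x hx
    rw [Subgroup.mem_comap]
    have : π x = 1 := by
      rw [← MonoidHom.mem_ker, hker]; exact hx
    rw [this]; exact B.one_mem
  have hBC : B.comap π ≤ Subgroup.centralizer (A : Set H) := by
    intro x hx
    rw [Subgroup.mem_comap] at hx
    obtain ⟨y, hy, hyx⟩ := hB2 hx
    have h3 : y⁻¹ * x ∈ A := by
      rw [← hker, MonoidHom.mem_ker, map_mul, map_inv, hyx, inv_mul_cancel]
    have h4 : x = y * (y⁻¹ * x) := by group
    rw [h4]
    exact mul_mem hy (hAC h3)
  have hcomm : ∀ x ∈ B.comap π, ∀ y ∈ B.comap π, x * y * x⁻¹ * y⁻¹ ∈ A := by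
    intro x hx y hy
    rw [Subgroup.mem_comap] at hx hy
    have h3 : π x * π y * (π x)⁻¹ * (π y)⁻¹ ∈ ⁅B, B⁆ := by
      have := Subgroup.commutator_mem_commutator hx hy
      rwa [commutatorElement_def] at this
    rw [hB4, Subgroup.mem_bot] at h3
    rw [← hker, MonoidHom.mem_ker]
    simpa using h3
  set L := B.comap π with hL
  have hLA : ¬ L ≤ A := by
    intro hle
    apply hB3
    rw [eq_bot_iff]
    intro b hb
    obtain ⟨x, rfl⟩ := hsurj b
    have hx : x ∈ A := hle (by rw [hL, Subgroup.mem_comap]; exact hb)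
    rw [← hker, MonoidHom.mem_ker] at hx
    rw [hx]; exact Subgroup.one_mem _
  have hcent : ∀ a ∈ A, ∀ x ∈ L, a * x = x * a := by
    intro a ha x hx
    have := hBC hx
    rw [Subgroup.mem_centralizer_iff] at this
    exact this a ha
  -- CORE for `L`
  have hcore : ∀ x ∈ L, ∀ y ∈ L, x * y * x⁻¹ * y⁻¹ ∈ N → x * y = y * x := by
    intro x hx y hy hxy
    have hcA := hcomm x hx y hy
    have hc1 : (x * y * x⁻¹ * y⁻¹) * x = x * (x * y * x⁻¹ * y⁻¹) := hcent _ hcA x hx
    have hc2 : (x * y * x⁻¹ * y⁻¹) * y = y * (x * y * x⁻¹ * y⁻¹) := hcent _ hcA y hy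
    have hc3 : x * y = y * x * (x * y * x⁻¹ * y⁻¹) := by
      rw [mul_assoc y x, ← hc1, ← mul_assoc, ← hc2]
      group
    have h1 := core x y _ hc3 hc1 hc2 hxy
    rw [h1, mul_one] at hc3
    exact hc3
  -- abelian normal subgroups of `L` lie in `A`
  have habs : ∀ X : Subgroup H, X.Normal → X ≤ L → (∀ x ∈ X, ∀ y ∈ X, x * y = y * x) → X ≤ A := by
    intro X hX hXL hXc
    have h1 : A ⊔ X ∈ S := by
      refine ⟨Subgroup.sup_normal A X, ?_⟩
      intro x hx y hy
      obtain ⟨a, ha, b, hb, rfl⟩ := Subgroup.mem_sup_of_normal_left.1 hx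
      obtain ⟨a', ha', b', hb', rfl⟩ := Subgroup.mem_sup_of_normal_left.1 hy
      have e1 : Commute a a' := hAS.2 a ha a' ha'
      have e2 : Commute a b' := hcent a ha b' (hXL hb')
      have e3 : Commute b a' := (hcent a' ha' b (hXL hb)).symm
      have e4 : Commute b b' := hXc b hb b' hb'
      exact (e1.mul_right e2).mul_left (e3.mul_right e4)
    exact le_sup_right.trans (hmax.le_of_ge h1 le_sup_left)
  have hLN : L ⊓ N ≤ A := by
    apply habs _ inferInstance inf_le_left
    intro x hx y hy
    apply hcore x hx.1 y hy.1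
    have h1 : x * (y * x⁻¹ * y⁻¹) ∈ N := mul_mem hx.2 (hNn.conj_mem _ (inv_mem hx.2) y)
    simpa only [mul_assoc] using h1
  rcases htop with ⟨n, P, hP0, hPn, hPN, hPs⟩ | ⟨Q, _, φ, hQ, hmet⟩
  · -- supersolvable top
    have hall : ∀ i, i ≤ n → L ⊓ P i ≤ A := by
      intro i
      induction i with
      | zero =>
        intro _
        rw [hP0]
        exact hLN
      | succ i ih =>
        intro hi
        have hi' := ih (by omega)
        have := hPN i
        have := hPN (i + 1)
        obtain ⟨g, hg⟩ := hPs i (by omega)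
        apply habs _ inferInstance inf_le_left
        let f : (L ⊓ P (i + 1) : Subgroup H) →* H ⧸ P i :=
          (QuotientGroup.mk' (P i)).comp (L ⊓ P (i + 1) : Subgroup H).subtype
        have hran : f.range ≤ Subgroup.zpowers (QuotientGroup.mk' (P i) g) := by
          rintro _ ⟨⟨x, hx⟩, rfl⟩
          have hx2 : x ∈ P (i + 1) := hx.2
          rw [hg] at hx2
          obtain ⟨a, ha, b, hb, hab⟩ := Subgroup.mem_sup_of_normal_left.1 hx2
          obtain ⟨k, hk⟩ := Subgroup.mem_zpowers_iff.1 hb
          rw [Subgroup.mem_zpowers_iff]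
          refine ⟨k, ?_⟩
          show (QuotientGroup.mk' (P i)) g ^ k = (QuotientGroup.mk' (P i)) x
          rw [← map_zpow, hk, ← hab, map_mul]
          have h2 : (QuotientGroup.mk' (P i)) a = 1 := by
            rw [← MonoidHom.mem_ker, QuotientGroup.ker_mk']
            exact ha
          rw [h2, one_mul]
        have hcyc : IsCyclic f.range :=
          isCyclic_of_injective (Subgroup.inclusion hran) (Subgroup.inclusion_injective hran)
        have hkc : f.rangeRestrict.ker ≤ Subgroup.center (L ⊓ P (i + 1) : Subgroup H) := by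
          rw [MonoidHom.ker_rangeRestrict]
          intro x hx
          rw [MonoidHom.mem_ker] at hx
          have h3 : (x : H) ∈ P i := by
            have : (QuotientGroup.mk' (P i)) (x : H) = 1 := hx
            rwa [← MonoidHom.mem_ker, QuotientGroup.ker_mk'] at this
          have h4 : (x : H) ∈ A := hi' ⟨x.2.1, h3⟩
          rw [Subgroup.mem_center_iff]
          intro y
          apply Subtype.ext
          exact (hcent _ h4 _ y.2.1).symm
        intro x hx y hy
        have h5 := MonoidHom.isMulCommutative_of_isCyclic_of_ker_le_center f.rangeRestrict hkc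
        exact congrArg Subtype.val (mul_comm' (⟨x, hx⟩ : (L ⊓ P (i + 1) : Subgroup H)) ⟨y, hy⟩)
    have h6 := hall n le_rfl
    rw [hPn, inf_top_eq] at h6
    exact hLA h6
  · -- abelian-by-nilpotent top
    have hX : L ⊓ φ.ker ≤ A := by
      apply habs _ inferInstance inf_le_left
      intro x hx y hy
      exact hcore x hx.1 y hy.1 (hmet x hx.2 y hy.2)
    obtain ⟨n, hn⟩ := hQ.nilpotent'
    have hall : ∀ i, L ⊓ (Subgroup.upperCentralSeries Q i).comap φ ≤ A := by
      intro i
      induction i with
      | zero =>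
        rw [Subgroup.upperCentralSeries_zero, MonoidHom.comap_bot]
        exact hX
      | succ i ih =>
        intro x hx
        obtain ⟨hx1, hx2⟩ := Subgroup.mem_inf.1 hx
        have hc : ∀ (m : ℤ) (h : H), h * x ^ m * h⁻¹ * (x ^ m)⁻¹ ∈ A := by
          intro m h
          have hxL : x ^ m ∈ L := zpow_mem hx1 m
          have hxP : x ^ m ∈ (Subgroup.upperCentralSeries Q (i + 1)).comap φ := zpow_mem hx2 m
          apply ih
          refine Subgroup.mem_inf.2 ⟨mul_mem (hLn.conj_mem _ hxL h) (inv_mem hxL), ?_⟩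
          rw [Subgroup.mem_comap, Subgroup.mem_upperCentralSeries_succ_iff] at hxP
          have h1 := inv_mem (hxP (φ h))
          rw [commutatorElement_inv, commutatorElement_def] at h1
          rw [Subgroup.mem_comap]
          simpa only [map_mul, map_inv] using h1
        have h1 : A ⊔ Subgroup.zpowers x ∈ S := by
          constructor
          · constructor
            intro z hz h
            obtain ⟨a, ha, b, hb, rfl⟩ := Subgroup.mem_sup_of_normal_left.1 hz
            obtain ⟨k, rfl⟩ := Subgroup.mem_zpowers_iff.1 hb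
            have h2 := hc k h
            have h3 : h * (a * x ^ k) * h⁻¹ =
                (h * a * h⁻¹ * (h * x ^ k * h⁻¹ * (x ^ k)⁻¹)) * x ^ k := by
              group
            rw [h3]
            refine Subgroup.mul_mem_sup (mul_mem (hAn.conj_mem a ha h) h2) ?_
            exact Subgroup.zpow_mem_zpowers x k
          · intro z hz w hw
            obtain ⟨a, ha, b, hb, rfl⟩ := Subgroup.mem_sup_of_normal_left.1 hz
            obtain ⟨a', ha', b', hb', rfl⟩ := Subgroup.mem_sup_of_normal_left.1 hw
            obtain ⟨k, rfl⟩ := Subgroup.mem_zpowers_iff.1 hb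
            obtain ⟨l, rfl⟩ := Subgroup.mem_zpowers_iff.1 hb'
            have e1 : Commute a a' := hAS.2 a ha a' ha'
            have e2 : Commute a (x ^ l) := hcent a ha _ (zpow_mem hx1 l)
            have e3 : Commute (x ^ k) a' := (hcent a' ha' _ (zpow_mem hx1 k)).symm
            have e4 : Commute (x ^ k) (x ^ l) := (Commute.refl x).zpow_zpow k l
            exact (e1.mul_right e2).mul_left (e3.mul_right e4)
        exact hmax.le_of_ge h1 le_sup_left (Subgroup.mem_sup_right (Subgroup.mem_zpowers x))
    have h6 := hall n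
    rw [hn, Subgroup.comap_top, inf_top_eq] at h6
    exact hLA h6

/-- **MAX'.** -/
theorem max (hc : Pool.Agent.Helper71.AG2.CoreStmt.{u}) (hs : SolStmt.{u}) : MaxStmt.{u} := by
  intro H _ _ hH
  have hsol := hs H hH
  obtain ⟨T, _, f, hf, _, hp, hT⟩ := hH
  refine maxp H hsol f.ker ?_ ?_
  · intro x y c h1 h2 h3 hcN
    refine hc H (Nat.card f.ker) Nat.card_pos hp x y c h1 h2 h3 ?_
    have h4 : (⟨c, hcN⟩ : f.ker) ^ Nat.card f.ker = 1 := pow_card_eq_one'
    exact congrArg Subtype.val h4
  · rcases hT with ⟨n, K, hK0, hKn, hKN, hKs⟩ | ⟨Q, _, g, hQ, hg⟩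
    · left
      refine ⟨n, fun i => (K i).comap f, ?_, ?_, ?_, ?_⟩
      · show (K 0).comap f = f.ker
        rw [hK0, MonoidHom.comap_bot]
      · show (K n).comap f = ⊤
        rw [hKn, Subgroup.comap_top]
      · intro i
        exact (hKN i).comap f
      · intro i hi
        obtain ⟨g, hg⟩ := hKs i hi
        obtain ⟨h, rfl⟩ := hf g
        refine ⟨h, ?_⟩
        show (K (i + 1)).comap f = (K i).comap f ⊔ Subgroup.zpowers h
        have := hKN i
        apply le_antisymm
        · intro x hx
          rw [Subgroup.mem_comap, hg] at hx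
          obtain ⟨a, ha, b, hb, hab⟩ := Subgroup.mem_sup_of_normal_left.1 hx
          obtain ⟨m, rfl⟩ := Subgroup.mem_zpowers_iff.1 hb
          have h5 : x = (x * (h ^ m)⁻¹) * h ^ m := by group
          rw [h5]
          refine Subgroup.mul_mem_sup ?_ (Subgroup.zpow_mem_zpowers h m)
          rw [Subgroup.mem_comap, map_mul, map_inv, map_zpow, ← hab, mul_inv_cancel_right]
          exact ha
        · rw [sup_le_iff]
          constructor
          · apply Subgroup.comap_mono
            rw [hg]
            exact le_sup_left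
          · rw [Subgroup.zpowers_le, Subgroup.mem_comap, hg]
            exact Subgroup.mem_sup_right (Subgroup.mem_zpowers (f h))
    · right
      refine ⟨Q, inferInstance, g.comp f, hQ, ?_⟩
      intro x hx y hy
      rw [MonoidHom.mem_ker, map_mul, map_mul, map_mul, map_inv, map_inv, hg _ hx _ hy]
      group

end Pool.Agent.Helper13.AG3
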