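import Pool.Agent.Helper46.KG.Final
import Pool.Agent.Helper71.KG.DL
import Pool.Agent.Helper13.AG3.Goals

/-!
# AG++ (MP_0f21ab_al): `2 |P| ^ 2 ≤ 3 ^ k(P)` for nilpotent groups, and abelian-by-nilpotent groups
-/

set_option autoImplicit false

namespace Pool.Agent.Helper13.AG3

universe u

open Helper46.KG
open scoped commutatorElement

/-- A nontrivial normal subgroup of a nilpotent group contains a nontrivial central element. -/
theorem exists_central {G : Type u} [Group G] (hG : Group.IsNilpotent G) (N : Subgroup G)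
    [hN : N.Normal] (h : N ≠ ⊥) : ∃ z ∈ N, z ≠ 1 ∧ z ∈ Subgroup.center G := by
  classical
  have hex : ∃ n, ∃ x ∈ N, x ≠ 1 ∧ x ∈ Subgroup.upperCentralSeries G n := by
    obtain ⟨n, hn⟩ := hG.nilpotent'
    obtain ⟨x, hx⟩ := (Subgroup.ne_bot_iff_exists_ne_one.1 h)
    refine ⟨n, x, x.2, ?_, ?_⟩
    · intro h1
      exact hx (Subtype.ext h1)
    · rw [hn]
      exact Subgroup.mem_top _
  obtain ⟨x, hxN, hx1, hx⟩ := Nat.find_spec hex
  have hmin := fun m hm => Nat.find_min hex (m := m) hm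
  rcases Nat.eq_zero_or_pos (Nat.find hex) with h0 | h0
  · rw [h0, Subgroup.upperCentralSeries_zero, Subgroup.mem_bot] at hx
    exact absurd hx hx1
  · obtain ⟨m, hm⟩ := Nat.exists_eq_succ_of_ne_zero h0.ne'
    rw [hm, Nat.succ_eq_add_one, Subgroup.mem_upperCentralSeries_succ_iff] at hx
    refine ⟨x, hxN, hx1, ?_⟩
    rw [Subgroup.mem_center_iff]
    intro g
    have h2 : x * g * x⁻¹ * g⁻¹ ∈ N := by
      have := mul_mem hxN (hN.conj_mem _ (inv_mem hxN) g)
      simpa only [mul_assoc] using this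
    have h3 := hx g
    by_contra hne
    apply hmin m (by omega)
    refine ⟨_, h2, ?_, h3⟩
    intro h4
    apply hne
    have h5 : x * g = g * x := by
      rw [mul_inv_eq_one, mul_inv_eq_iff_eq_mul] at h4
      exact h4
    exact h5.symm

theorem exists_central_prime {G : Type u} [Group G] [Finite G] (hG : Group.IsNilpotent G) (p : ℕ)
    (hp : p.Prime) (hd : p ∣ Nat.card G) :
    ∃ z ∈ Subgroup.center G, orderOf z = p := by
  have := Fact.mk hp
  obtain ⟨S⟩ : Nonempty (Sylow p G) := inferInstance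
  obtain ⟨z, hzS, hz1, hz⟩ := exists_central hG (S : Subgroup G) (S.ne_bot_of_dvd_card hd)
  obtain ⟨j, hj⟩ := (IsPGroup.iff_orderOf.1 S.isPGroup' ⟨z, hzS⟩)
  rw [Subgroup.orderOf_mk] at hj
  have hj0 : j ≠ 0 := by
    rintro rfl
    rw [pow_zero, orderOf_eq_one_iff] at hj
    exact hz1 hj
  obtain ⟨i, rfl⟩ := Nat.exists_eq_succ_of_ne_zero hj0
  refine ⟨z ^ (p ^ i), pow_mem hz _, ?_⟩
  rw [orderOf_pow' z (pow_ne_zero _ hp.ne_zero), hj]
  have h1 : Nat.gcd (p ^ (i + 1)) (p ^ i) = p ^ i :=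
    Nat.gcd_eq_right (pow_dvd_pow p (Nat.le_succ i))
  rw [Nat.succ_eq_add_one, h1, pow_succ, Nat.mul_div_cancel_left _ (pow_pos hp.pos i)]

theorem k_pos {G : Type u} [Group G] [Finite G] : 1 ≤ k G := by
  have : 0 < Nat.card (ConjClasses G) := Nat.card_pos
  exact this

/-- `2`-groups. -/
theorem two_group (e : ℕ) : ∀ (G : Type u) [Group G] [Finite G], Nat.card G = 2 ^ e →
    1 + e + e / 2 ≤ k G := by
  induction e with
  | zero =>
    intro G _ _ _
    simpa using k_pos (G := G)
  | succ e ih =>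
    intro G _ _ hG
    have hf := Fact.mk Nat.prime_two
    have hpG : IsPGroup 2 G := IsPGroup.of_card hG
    have hnil : Group.IsNilpotent G := hpG.isNilpotent
    obtain ⟨z, hz, hzo⟩ := exists_central_prime hnil 2 Nat.prime_two
      (by rw [hG]; exact dvd_pow_self 2 (Nat.succ_ne_zero e))
    have hZn : (Subgroup.zpowers z).Normal := by
      constructor
      intro x hx g
      obtain ⟨n, rfl⟩ := Subgroup.mem_zpowers_iff.1 hx
      have h1 : z ^ n ∈ Subgroup.center G := zpow_mem hz n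
      rw [Subgroup.mem_center_iff] at h1
      rw [h1 g, mul_inv_cancel_right]
      exact hx
    have hZ : Nat.card (Subgroup.zpowers z) = 2 := by rw [Nat.card_zpowers, hzo]
    have hst := stage Helper36.KG.stE Pool.Agent.Helper11.KG.stG1 Helper36.KG.stG2 Nat.prime_two
      (⊤ : Subgroup G) (Subgroup.zpowers z) (hpG.to_subgroup ⊤)
      (by rw [Subgroup.index_top]; norm_num) le_top hZ le_top (e + 1)
      (by rw [Subgroup.card_top]; exact hG) 1 1 1 Subgroup.index_top
      (by intro b hb; omega) (by intro b hb; omega)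
    have hq : Nat.card (G ⧸ Subgroup.zpowers z) = 2 ^ e := by
      have h1 := Subgroup.card_eq_card_quotient_mul_card_subgroup (Subgroup.zpowers z)
      rw [hG, hZ, pow_succ] at h1
      omega
    have h2 := ih (G ⧸ Subgroup.zpowers z) hq
    by_cases hev : Even (e + 1)
    · rw [if_pos hev] at hst
      obtain ⟨r, hr⟩ := hev
      omega
    · rw [if_neg hev] at hst
      rw [Nat.not_even_iff_odd] at hev
      obtain ⟨r, hr⟩ := hev
      omega

theorem num_two (e : ℕ) : 2 * (2 ^ e) ^ 2 ≤ 3 ^ (1 + e + e / 2) := by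
  induction e using Nat.strong_induction_on with
  | _ e ih =>
    rcases Nat.lt_or_ge e 2 with h | h
    · interval_cases e <;> norm_num
    · obtain ⟨f, rfl⟩ : ∃ f, e = f + 2 := ⟨e - 2, by omega⟩
      have h1 := ih f (by omega)
      have h2 : (f + 2) / 2 = f / 2 + 1 := by omega
      have h3 : 1 + (f + 2) + (f / 2 + 1) = (1 + f + f / 2) + 3 := by ring
      rw [h2, h3, pow_add _ _ 3]
      have h4 : 2 * (2 ^ (f + 2)) ^ 2 = 2 * (2 ^ f) ^ 2 * 16 := by ring
      rw [h4]
      have h5 : (3 : ℕ) ^ 3 = 27 := by norm_num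
      rw [h5]
      nlinarith

theorem num_odd (p : ℕ) (hp : 3 ≤ p) : p ^ 2 ≤ 3 ^ (p - 1) := by
  induction p, hp using Nat.le_induction with
  | base => norm_num
  | succ n hn ih =>
    have h1 : n + 1 - 1 = (n - 1) + 1 := by omega
    rw [h1, pow_succ 3]
    have h2 : (n + 1) ^ 2 ≤ n ^ 2 * 3 := by nlinarith
    exact h2.trans (Nat.mul_le_mul_right 3 ih)

/-- Nilpotent groups. -/
theorem nil (n : ℕ) : ∀ (G : Type u) [Group G] [Finite G], Nat.card G = n → Group.IsNilpotent G →
    2 * Nat.card G ^ 2 ≤ 3 ^ k G := by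
  induction n using Nat.strong_induction_on with
  | _ n ih =>
    intro G _ _ hn hG
    by_cases hodd : ∃ p : ℕ, p.Prime ∧ p ≠ 2 ∧ p ∣ Nat.card G
    · obtain ⟨p, hp, hp2, hd⟩ := hodd
      obtain ⟨z, hz, hzo⟩ := exists_central_prime hG p hp hd
      have hZn : (Subgroup.zpowers z).Normal := by
        constructor
        intro x hx g
        obtain ⟨n, rfl⟩ := Subgroup.mem_zpowers_iff.1 hx
        have h1 : z ^ n ∈ Subgroup.center G := zpow_mem hz n
        rw [Subgroup.mem_center_iff] at h1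
        rw [h1 g, mul_inv_cancel_right]
        exact hx
      have hZ : Nat.card (Subgroup.zpowers z) = p := by rw [Nat.card_zpowers, hzo]
      obtain ⟨g, hg1, hg2⟩ := stage_central (⊤ : Subgroup G) (Subgroup.zpowers z) (by
        intro y hy x _
        obtain ⟨n, rfl⟩ := Subgroup.mem_zpowers_iff.1 hy
        have h1 : z ^ n ∈ Subgroup.center G := zpow_mem hz n
        rw [Subgroup.mem_center_iff] at h1
        exact h1 x)
      rw [Subgroup.index_top, one_mul, hZ] at hg1
      have hcard := Subgroup.card_eq_card_quotient_mul_card_subgroup (Subgroup.zpowers z)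
      rw [hZ] at hcard
      have hpos : 0 < Nat.card (G ⧸ Subgroup.zpowers z) := Nat.card_pos
      have hp3 : 3 ≤ p := by
        have := hp.two_le
        omega
      have hlt : Nat.card (G ⧸ Subgroup.zpowers z) < n := by
        rw [← hn, hcard]
        nlinarith
      have := hG
      have h1 := ih _ hlt (G ⧸ Subgroup.zpowers z) rfl inferInstance
      calc 2 * Nat.card G ^ 2 = (2 * Nat.card (G ⧸ Subgroup.zpowers z) ^ 2) * p ^ 2 := by
            rw [hcard]; ring
        _ ≤ 3 ^ k (G ⧸ Subgroup.zpowers z) * 3 ^ (p - 1) := Nat.mul_le_mul h1 (num_odd p hp3)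
        _ = 3 ^ (k (G ⧸ Subgroup.zpowers z) + (p - 1)) := by rw [pow_add]
        _ ≤ 3 ^ k G := Nat.pow_le_pow_right (by norm_num) (by omega)
    · push Not at hodd
      have h1 : ∃ e, Nat.card G = 2 ^ e := by
        have h2 : Nat.card G ≠ 0 := Nat.card_pos.ne'
        refine ⟨(Nat.card G).primeFactorsList.length, ?_⟩
        refine Nat.eq_prime_pow_of_unique_prime_dvd h2 ?_
        intro p hp hd
        by_contra hne
        exact hodd p hp hne hd
      obtain ⟨e, he⟩ := h1
      have h3 := two_group e G he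
      rw [he]
      exact (num_two e).trans (Nat.pow_le_pow_right (by norm_num) h3)

theorem num_base (q n : ℕ) (hq : 2 ≤ q) (hn : 1 ≤ n) : 3 * (q * (1 + n * q)) ≤ 2 * q ^ 2 * 3 ^ n := by
  have h1 : 3 * (2 * n + 1) ≤ 4 * 3 ^ n := by
    induction n, hn using Nat.le_induction with
    | base => norm_num
    | succ m hm ih =>
      rw [pow_succ]
      omega
  have h2 : 2 * (1 + n * q) ≤ (2 * n + 1) * q := by nlinarith
  have h3 : 2 * (3 * (q * (1 + n * q))) ≤ 2 * (2 * q ^ 2 * 3 ^ n) := by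
    calc 2 * (3 * (q * (1 + n * q))) = 3 * q * (2 * (1 + n * q)) := by ring
      _ ≤ 3 * q * ((2 * n + 1) * q) := Nat.mul_le_mul_left _ h2
      _ = q ^ 2 * (3 * (2 * n + 1)) := by ring
      _ ≤ q ^ 2 * (4 * 3 ^ n) := Nat.mul_le_mul_left _ h1
      _ = 2 * (2 * q ^ 2 * 3 ^ n) := by ring
  omega

/-- Abelian-by-nilpotent groups. -/
theorem abn_base {G : Type u} [Group G] [Finite G] (M : Subgroup G) [M.Normal]
    (hM : ∀ x ∈ M, ∀ y ∈ M, x * y = y * x) (hQ : Group.IsNilpotent (G ⧸ M)) :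
    3 * Nat.card G ≤ 3 ^ k G := by
  obtain ⟨n, hn1, hn2⟩ := stage_central M M (fun z hz x hx => hM x hx z hz)
  have hcard := Subgroup.card_eq_card_quotient_mul_card_subgroup M
  have hidx : M.index = Nat.card (G ⧸ M) := rfl
  rw [hidx] at hn1
  have hnil := nil _ (G ⧸ M) rfl hQ
  set q := Nat.card (G ⧸ M) with hq
  have hq0 : 0 < q := Nat.card_pos
  have hM0 : 0 < Nat.card M := Nat.card_pos
  have hk : 3 ^ (k (G ⧸ M) + n) ≤ 3 ^ k G := Nat.pow_le_pow_right (by norm_num) hn2
  refine le_trans ?_ hk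
  rw [pow_add, hcard]
  rcases Nat.eq_zero_or_pos n with h0 | h0
  · subst h0
    have h1 : Nat.card M = 1 := by omega
    rw [h1, mul_one, pow_zero, mul_one]
    have hkp : 1 ≤ k (G ⧸ M) := k_pos
    rcases Nat.lt_or_ge q 2 with h2 | h2
    · have h3 : q = 1 := by omega
      rw [h3]
      calc 3 * 1 = 3 ^ 1 := by norm_num
        _ ≤ _ := Nat.pow_le_pow_right (by norm_num) hkp
    · refine le_trans ?_ hnil
      nlinarith
  · rcases Nat.lt_or_ge q 2 with h2 | h2
    · have h3 : q = 1 := by omega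
      rw [h3] at hn1 ⊢
      have hkp : 1 ≤ k (G ⧸ M) := k_pos
      have h4 : n + 1 ≤ 3 ^ n := Nat.lt_pow_self (by norm_num)
      calc 3 * (1 * Nat.card M) ≤ 3 ^ 1 * 3 ^ n := by
            rw [one_mul, pow_one]
            apply Nat.mul_le_mul_left
            omega
        _ ≤ _ := Nat.mul_le_mul_right _ (Nat.pow_le_pow_right (by norm_num) hkp)
    · calc 3 * (q * Nat.card M) ≤ 3 * (q * (1 + n * q)) := by
            apply Nat.mul_le_mul_left
            apply Nat.mul_le_mul_left
            nlinarith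
        _ ≤ 2 * q ^ 2 * 3 ^ n := num_base q n h2 h0
        _ ≤ _ := Nat.mul_le_mul_right _ hnil

theorem nilStmt : NilStmt.{u} := fun P _ _ h => nil _ P rfl h

end Pool.Agent.Helper13.AG3
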